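import Mathlib
import Pool.Graph.R_seed8.Results.MP_2957ea_an.EquivalenceFails

/-!
# The lists of integer points

Block `k` consists of integer points indexed by all natural numbers. The coordinates with number
less than `k + 2` run over a box, and two of them, the pair `pr k`, carry the weights of the
library construction.
-/

set_option autoImplicit false

namespace Pool.Agent.KS6_76.NC

open Pool.Agent.Results.MP_2957ea_an.EquivalenceFails
open Pool.Agent.Results.MP_2957ea_an.EquivalenceFails.Conc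
open Pool.Agent.Results.MP_2957ea_an.EquivalenceFails.Bil
open Pool.Agent.Results.MP_2957ea_an.EquivalenceFails.Wt
open Pool.Agent.Results.MP_2957ea_an.EquivalenceFails.Comb
open Filter Topology

/-- the pair of coordinates used in block `k` -/
def pr (k : ℕ) : ℕ × ℕ :=
  if (Nat.unpair (Nat.unpair (k / 2)).1).1 = (Nat.unpair (Nat.unpair (k / 2)).1).2 then (0, 1)
  else Nat.unpair (Nat.unpair (k / 2)).1

theorem pr_ne (k : ℕ) : (pr k).1 ≠ (pr k).2 := by
  unfold pr
  split_ifs with h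
  · simp
  · exact h

theorem pr_lt (k : ℕ) : (pr k).1 < k + 2 ∧ (pr k).2 < k + 2 := by
  have h1 : (Nat.unpair (k / 2)).1 ≤ k / 2 := Nat.unpair_left_le _
  have h2 : (Nat.unpair (Nat.unpair (k / 2)).1).1 ≤ (Nat.unpair (k / 2)).1 := Nat.unpair_left_le _
  have h3 : (Nat.unpair (Nat.unpair (k / 2)).1).2 ≤ (Nat.unpair (k / 2)).1 := Nat.unpair_right_le _
  unfold pr
  split_ifs with h
  · constructor <;> simp
  · constructor <;> omega

theorem pr_inf (i j : ℕ) (h : i ≠ j) (K : ℕ) :
    ∃ t, K ≤ t ∧ pr (2 * t) = (i, j) ∧ pr (2 * t + 1) = (i, j) := by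
  refine ⟨Nat.pair (Nat.pair i j) K, Nat.right_le_pair _ _, ?_, ?_⟩
  · have e : 2 * Nat.pair (Nat.pair i j) K / 2 = Nat.pair (Nat.pair i j) K := by omega
    unfold pr
    rw [e, Nat.unpair_pair]
    simp [h]
  · have e : (2 * Nat.pair (Nat.pair i j) K + 1) / 2 = Nat.pair (Nat.pair i j) K := by omega
    unfold pr
    rw [e, Nat.unpair_pair]
    simp [h]

/-- the points of block `k` -/
def point (k : ℕ) (ab : ℤ × ℤ) (c : Fin (k + 2) → ℕ) (i : ℕ) : ℤ :=
  if i = (pr k).1 then ab.1 else if i = (pr k).2 then ab.2 else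
    if h : i < k + 2 then (c ⟨i, h⟩ : ℤ) else 0

/-- the lists -/
noncomputable def MM (k : ℕ) : List (ℕ → ℤ) :=
  (ML k).flatMap fun ab =>
    (Fintype.piFinset (fun _ : Fin (k + 2) => Finset.range (qk k))).toList.map (point k ab)

theorem sum_flatMap {P Q E : Type} [AddCommMonoid E] (Φ : P → E) (f : Q → List P) (L : List Q) :
    ((L.flatMap f).map Φ).sum = (L.map fun x => ((f x).map Φ).sum).sum := by
  induction L with
  | nil => simp
  | cons x L ih => simp [List.flatMap_cons, List.map_append, List.sum_append, ih]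

theorem sum_MM {E : Type} [AddCommMonoid E] (Φ : (ℕ → ℤ) → E) (k : ℕ) :
    ((MM k).map Φ).sum = ((ML k).map fun ab =>
      ∑ c ∈ Fintype.piFinset (fun _ : Fin (k + 2) => Finset.range (qk k)),
        Φ (point k ab c)).sum := by
  unfold MM
  rw [sum_flatMap]
  congr 1
  apply List.map_congr_left
  intro ab _
  rw [List.map_map]
  exact Finset.sum_map_toList _ _

theorem length_MM (k : ℕ) : (MM k).length = (ML k).length * (qk k) ^ (k + 2) := by
  have h := sum_MM (E := ℕ) (fun _ => 1) k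
  simpa using h

theorem MM_ne (k : ℕ) : MM k ≠ [] := by
  have h : 0 < (MM k).length := by
    rw [length_MM]
    exact Nat.mul_pos (List.length_pos_iff.mpr (ML_ne k)) (pow_pos (qk_pos k) _)
  exact List.length_pos_iff.mp h

theorem prod_split {R : Type} [CommMonoid R] (n i j : ℕ) (hi : i < n) (hj : j < n) (hij : i ≠ j)
    (F : ℕ → R) : ∏ s ∈ Finset.range n, F s
      = F i * F j * ∏ s : Fin n, (if s.1 = i ∨ s.1 = j then 1 else F s.1) := by
  rw [← Finset.prod_range (fun s => if s = i ∨ s = j then 1 else F s)]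
  have e : ∀ s, F s = (if s = i then F i else 1) * (if s = j then F j else 1) *
      (if s = i ∨ s = j then 1 else F s) := by
    intro s
    by_cases h1 : s = i
    · subst h1; simp [hij]
    · by_cases h2 : s = j
      · subst h2; simp [h1]
      · simp [h1, h2]
  rw [Finset.prod_congr rfl fun s _ => e s, Finset.prod_mul_distrib, Finset.prod_mul_distrib,
    Finset.prod_ite_eq', Finset.prod_ite_eq', if_pos (Finset.mem_range.mpr hi),
    if_pos (Finset.mem_range.mpr hj)]

/-- the averages of a function on the integers -/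
noncomputable def A (q : ℕ) (u : ℤ → ℂ) : ℂ := (q : ℂ)⁻¹ * ∑ a ∈ Finset.range q, u a

theorem norm_A_le (q : ℕ) (u : ℤ → ℂ) (C : ℝ) (hC : 0 ≤ C) (hu : ∀ a, ‖u a‖ ≤ C) : ‖A q u‖ ≤ C := by
  unfold A
  rw [norm_mul, norm_inv, Complex.norm_natCast]
  rcases Nat.eq_zero_or_pos q with rfl | hq
  · simpa using hC
  have hq0 : (0 : ℝ) < q := by exact_mod_cast hq
  rw [inv_mul_le_iff₀ hq0]
  calc _ ≤ ∑ a ∈ Finset.range q, ‖u a‖ := norm_sum_le _ _
    _ ≤ ∑ a ∈ Finset.range q, C := Finset.sum_le_sum fun _ _ => hu _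
    _ = _ := by simp

theorem avg_MM_eq (k : ℕ) (U : ℕ → ℤ → ℂ) :
    ((MM k).length : ℝ)⁻¹ • ((MM k).map fun p => ∏ s ∈ Finset.range (k + 2), U s (p s)).sum
      = (((ML k).length : ℝ)⁻¹ • ((ML k).map fun n => U (pr k).1 n.1 * U (pr k).2 n.2).sum) *
        ∏ s : Fin (k + 2), (if s.1 = (pr k).1 ∨ s.1 = (pr k).2 then 1 else A (qk k) (U s.1)) := by
  have hq0 : (qk k : ℂ) ≠ 0 := by exact_mod_cast (qk_pos k).ne'
  rw [sum_MM, length_MM]
  set V : Fin (k + 2) → ℕ → ℂ := fun s x =>
    if s.1 = (pr k).1 ∨ s.1 = (pr k).2 then 1 else U s.1 x with hV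
  have h1 : ∀ ab : ℤ × ℤ, ∑ c ∈ Fintype.piFinset (fun _ : Fin (k + 2) => Finset.range (qk k)),
      ∏ s ∈ Finset.range (k + 2), U s (point k ab c s)
      = U (pr k).1 ab.1 * U (pr k).2 ab.2 * ∏ s : Fin (k + 2), ∑ x ∈ Finset.range (qk k), V s x := by
    intro ab
    rw [Finset.prod_univ_sum, Finset.mul_sum]
    refine Finset.sum_congr rfl fun c _ => ?_
    rw [prod_split (k + 2) (pr k).1 (pr k).2 (pr_lt k).1 (pr_lt k).2 (pr_ne k)
      (fun s => U s (point k ab c s))]
    have e1 : point k ab c (pr k).1 = ab.1 := by simp [point]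
    have e2 : point k ab c (pr k).2 = ab.2 := by
      unfold point
      rw [if_neg (pr_ne k).symm, if_pos rfl]
    rw [e1, e2]
    congr 1
    refine Finset.prod_congr rfl fun s _ => ?_
    rw [hV]
    simp only
    by_cases h : s.1 = (pr k).1 ∨ s.1 = (pr k).2
    · rw [if_pos h, if_pos h]
    · rw [if_neg h, if_neg h]
      push Not at h
      unfold point
      rw [if_neg h.1, if_neg h.2, dif_pos s.2]
  have h2 : ((ML k).map fun ab => ∑ c ∈ Fintype.piFinset (fun _ : Fin (k + 2) => Finset.range (qk k)),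
      ∏ s ∈ Finset.range (k + 2), U s (point k ab c s)).sum
      = ((ML k).map fun n => U (pr k).1 n.1 * U (pr k).2 n.2).sum *
        ∏ s : Fin (k + 2), ∑ x ∈ Finset.range (qk k), V s x := by
    rw [← List.sum_map_mul_right]
    congr 1
    apply List.map_congr_left
    intro ab _
    exact h1 ab
  rw [h2]
  have h3 : ∏ s : Fin (k + 2), ∑ x ∈ Finset.range (qk k), V s x
      = (qk k : ℂ) ^ (k + 2) * ∏ s : Fin (k + 2),
        (if s.1 = (pr k).1 ∨ s.1 = (pr k).2 then 1 else A (qk k) (U s.1)) := by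
    have e : ∀ s : Fin (k + 2), ∑ x ∈ Finset.range (qk k), V s x = (qk k : ℂ) *
        (if s.1 = (pr k).1 ∨ s.1 = (pr k).2 then 1 else A (qk k) (U s.1)) := by
      intro s
      rw [hV]
      simp only
      by_cases h : s.1 = (pr k).1 ∨ s.1 = (pr k).2
      · simp [h]
      · simp only [if_neg h]
        unfold A
        rw [mul_inv_cancel_left₀ hq0]
    rw [Finset.prod_congr rfl fun s _ => e s, Finset.prod_mul_distrib]
    simp
  rw [h3, Complex.real_smul, Complex.real_smul]
  push_cast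
  field_simp

/-- averages of products over the lists -/
theorem avg_MM (k : ℕ) (hη : eta (qk k) ≤ 1 / 2) (U : ℕ → ℤ → ℂ) (B : ℕ → ℝ)
    (hB0 : ∀ s, 0 ≤ B s) (hB : ∀ s x, ‖U s x‖ ≤ B s) :
    ‖((MM k).length : ℝ)⁻¹ • ((MM k).map fun p => ∏ s ∈ Finset.range (k + 2), U s (p s)).sum
      - ∏ s ∈ Finset.range (k + 2), A (qk k) (U s)‖ ≤ (∏ s ∈ Finset.range (k + 2), B s) * dl k := by
  rw [avg_MM_eq, prod_split (k + 2) (pr k).1 (pr k).2 (pr_lt k).1 (pr_lt k).2 (pr_ne k)
    (fun s => A (qk k) (U s)), prod_split (k + 2) (pr k).1 (pr k).2 (pr_lt k).1 (pr_lt k).2 (pr_ne k)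
    B, ← sub_mul, norm_mul]
  have hdl0 : 0 ≤ dl k := by
    unfold dl
    have := eta_nonneg (qk k)
    positivity
  have h1 := avg_prod k hη (U (pr k).1) (U (pr k).2) (B (pr k).1) (B (pr k).2) (hB _) (hB _)
  have h2 : ‖∏ s : Fin (k + 2), (if s.1 = (pr k).1 ∨ s.1 = (pr k).2 then 1 else A (qk k) (U s.1))‖
      ≤ ∏ s : Fin (k + 2), (if s.1 = (pr k).1 ∨ s.1 = (pr k).2 then 1 else B s.1) := by
    rw [norm_prod]
    refine Finset.prod_le_prod (fun _ _ => norm_nonneg _) fun s _ => ?_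
    split_ifs with h
    · simp
    · exact norm_A_le _ _ _ (hB0 _) (hB _)
  have h3 : (0 : ℝ) ≤ B (pr k).1 * B (pr k).2 * dl k :=
    mul_nonneg (mul_nonneg (hB0 _) (hB0 _)) hdl0
  calc _ ≤ B (pr k).1 * B (pr k).2 * dl k *
        ∏ s : Fin (k + 2), (if s.1 = (pr k).1 ∨ s.1 = (pr k).2 then 1 else B s.1) :=
        mul_le_mul h1 h2 (norm_nonneg _) h3
    _ = _ := by ring

/-- averages of products of finitely many functions over the lists -/
theorem avg_tuple {ℓ : ℕ} (s : Fin ℓ → ℕ) (hs : Function.Injective s) (k : ℕ)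
    (hk : ∀ i, s i < k + 2) (hη : eta (qk k) ≤ 1 / 2) (u : Fin ℓ → ℤ → ℂ) (C : Fin ℓ → ℝ)
    (hC0 : ∀ i, 0 ≤ C i) (hC : ∀ i x, ‖u i x‖ ≤ C i) :
    ‖((MM k).length : ℝ)⁻¹ • ((MM k).map fun p => ∏ i, u i (p (s i))).sum
      - ∏ i, A (qk k) (u i)‖ ≤ (∏ i, C i) * dl k := by
  set U : ℕ → ℤ → ℂ := fun r x => ∏ i, if s i = r then u i x else 1 with hU
  set B : ℕ → ℝ := fun r => ∏ i, if s i = r then C i else 1 with hBdef
  have hB0 : ∀ r, 0 ≤ B r := fun r => Finset.prod_nonneg fun i _ => by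
    split_ifs
    · exact hC0 i
    · norm_num
  have hB : ∀ r x, ‖U r x‖ ≤ B r := by
    intro r x
    rw [hU, hBdef]
    simp only [norm_prod]
    refine Finset.prod_le_prod (fun _ _ => norm_nonneg _) fun i _ => ?_
    split_ifs
    · exact hC i x
    · simp
  have h := avg_MM k hη U B hB0 hB
  have e1 : (fun p : ℕ → ℤ => ∏ r ∈ Finset.range (k + 2), U r (p r))
      = fun p => ∏ i, u i (p (s i)) := by
    funext p
    rw [hU]
    simp only
    rw [Finset.prod_comm]
    refine Finset.prod_congr rfl fun i _ => ?_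
    rw [Finset.prod_ite_eq, if_pos (Finset.mem_range.mpr (hk i))]
  have e2 : ∏ r ∈ Finset.range (k + 2), B r = ∏ i, C i := by
    rw [hBdef]
    simp only
    rw [Finset.prod_comm]
    refine Finset.prod_congr rfl fun i _ => ?_
    rw [Finset.prod_ite_eq, if_pos (Finset.mem_range.mpr (hk i))]
  have e3 : ∏ r ∈ Finset.range (k + 2), A (qk k) (U r) = ∏ i, A (qk k) (u i) := by
    have h1 : ∀ i, U (s i) = u i := by
      intro i
      funext x
      rw [hU]
      simp only
      rw [Finset.prod_eq_single i]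
      · rw [if_pos rfl]
      · intro b _ hb
        rw [if_neg fun h => hb (hs h)]
      · intro h; exact absurd (Finset.mem_univ i) h
    have h2 : ∀ r, r ∉ Finset.univ.image s → A (qk k) (U r) = 1 := by
      intro r hr
      have h3 : ∀ x, U r x = 1 := by
        intro x
        rw [hU]
        simp only
        refine Finset.prod_eq_one fun i _ => ?_
        rw [if_neg]
        intro h
        exact hr (Finset.mem_image.mpr ⟨i, Finset.mem_univ i, h⟩)
      unfold A
      have hq0 : (qk k : ℂ) ≠ 0 := by exact_mod_cast (qk_pos k).ne'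
      simp [h3, hq0]
    rw [← Finset.prod_subset (s₁ := Finset.univ.image s)]
    · rw [Finset.prod_image fun i _ j _ h => hs h]
      exact Finset.prod_congr rfl fun i _ => by rw [h1]
    · intro r hr
      obtain ⟨i, _, rfl⟩ := Finset.mem_image.mp hr
      exact Finset.mem_range.mpr (hk i)
    · intro r _ hr
      exact h2 r hr
  rw [e1, e2, e3] at h
  exact h

theorem eventually_eta : ∀ᶠ k in atTop, eta (qk k) ≤ 1 / 2 :=
  (eta_qk_tendsto.eventually (eventually_le_nhds (by norm_num : (0 : ℝ) < 1 / 2)))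

theorem qk_atTop : Tendsto qk atTop atTop := tendsto_atTop_mono qk_ge tendsto_id

theorem eventually_lt {ℓ : ℕ} (s : Fin ℓ → ℕ) : ∀ᶠ k in atTop, ∀ i, s i < k + 2 := by
  filter_upwards [eventually_ge_atTop (∑ i, s i)] with k hk i
  have := Finset.single_le_sum (f := s) (fun _ _ => Nat.zero_le _) (Finset.mem_univ i)
  omega

/-- the sequences -/
noncomputable def aa (r n : ℕ) : ℤ := seqq MM (n - 1) r

/-- numerical sequences -/
theorem numeric {ℓ : ℕ} (s : Fin ℓ → ℕ) (hs : Function.Injective s) (u : Fin ℓ → ℤ → ℂ)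
    (hu : ∀ i, ∃ C : ℝ, ∀ x, ‖u i x‖ ≤ C) (c : Fin ℓ → ℂ)
    (hc : ∀ i, Tendsto (fun q : ℕ => A q (u i)) atTop (𝓝 (c i))) :
    Tendsto (fun N : ℕ => (1 / (N : ℂ)) * ∑ n ∈ Finset.Icc 1 N, ∏ i, u i (aa (s i) n)) atTop
      (𝓝 (∏ i, c i)) := by
  choose C hC using hu
  have hC0 : ∀ i, 0 ≤ C i := fun i => (norm_nonneg _).trans (hC i 0)
  set Φ : (ℕ → ℤ) → ℂ := fun p => ∏ i, u i (p (s i)) with hΦ
  have hΦb : ∀ p, ‖Φ p‖ ≤ ∏ i, C i := by
    intro p
    rw [hΦ]
    simp only [norm_prod]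
    exact Finset.prod_le_prod (fun _ _ => norm_nonneg _) fun i _ => hC i _
  have hlist : Tendsto (fun k => ((MM k).length : ℝ)⁻¹ • ((MM k).map Φ).sum) atTop
      (𝓝 (∏ i, c i)) := by
    have h1 : Tendsto (fun k => ∏ i, A (qk k) (u i)) atTop (𝓝 (∏ i, c i)) :=
      tendsto_finsetProd _ fun i _ => (hc i).comp qk_atTop
    have h2 : Tendsto (fun k => ((MM k).length : ℝ)⁻¹ • ((MM k).map Φ).sum
        - ∏ i, A (qk k) (u i)) atTop (𝓝 0) := by
      rw [tendsto_zero_iff_norm_tendsto_zero]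
      have hb : Tendsto (fun k => (∏ i, C i) * dl k) atTop (𝓝 0) := by
        simpa using dl_tendsto.const_mul (∏ i, C i)
      refine squeeze_zero' (Eventually.of_forall fun _ => norm_nonneg _) ?_ hb
      filter_upwards [eventually_eta, eventually_lt s] with k hk hk2
      exact avg_tuple s hs k hk2 hk u C hC0 hC
    simpa using h2.add h1
  have hrun := tendsto_avg MM MM_ne Φ _ hΦb _ hlist
  refine hrun.congr fun N => ?_
  rw [Complex.real_smul]
  have := Fin1.shift_sum (fun n => Φ (seqq MM n)) N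
  rw [← this]
  push_cast
  rw [one_div]
  rfl

end Pool.Agent.KS6_76.NC
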