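import Mathlib
import Pool.Agent.KS6_76.NC.Lists

/-!
# Averages of products for arbitrary, not necessarily commuting, transformations
-/

set_option autoImplicit false

namespace Pool.Agent.KS6_76.NC

open Pool.Agent.Results.MP_2957ea_an.EquivalenceFails
open Pool.Agent.Results.MP_2957ea_an.EquivalenceFails.Conc
open Pool.Agent.Results.MP_2957ea_an.EquivalenceFails.Bil
open Pool.Agent.Results.MP_2957ea_an.EquivalenceFails.Comb
open Pool.Agent.Results.MP_2957ea_an.EquivalenceFails.Dyn
open Filter Topology MeasureTheory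
open scoped ENNReal

variable {X : Type} [MeasurableSpace X]

/-- uniformly bounded convergence in mean square -/
structure Conv (μ : Measure X) (F : ℕ → X → ℂ) (f : X → ℂ) (C : ℝ) : Prop where
  sm : ∀ q, StronglyMeasurable (F q)
  bd : ∀ q x, ‖F q x‖ ≤ C
  lsm : AEStronglyMeasurable f μ
  lbd : ∀ᵐ x ∂μ, ‖f x‖ ≤ C
  lim : Tendsto (fun q => eLpNorm (fun x => F q x - f x) 2 μ) atTop (𝓝 0)

variable {μ : Measure X} [IsProbabilityMeasure μ]

omit [IsProbabilityMeasure μ] in
theorem ae_bound {F : ℕ → X → ℂ} {f : X → ℂ} {C : ℝ} (hF : ∀ q, StronglyMeasurable (F q))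
    (hb : ∀ q x, ‖F q x‖ ≤ C) (hf : AEStronglyMeasurable f μ)
    (hl : Tendsto (fun q => eLpNorm (fun x => F q x - f x) 2 μ) atTop (𝓝 0)) :
    ∀ᵐ x ∂μ, ‖f x‖ ≤ C := by
  have h1 : TendstoInMeasure μ F atTop f :=
    tendstoInMeasure_of_tendsto_eLpNorm (p := 2) (by norm_num) (fun q => (hF q).aestronglyMeasurable)
      hf hl
  obtain ⟨ns, _, hns⟩ := h1.exists_seq_tendsto_ae
  filter_upwards [hns] with x hx
  exact le_of_tendsto hx.norm (Eventually.of_forall fun i => hb _ _)

omit [IsProbabilityMeasure μ] in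
theorem Conv.mul {F G : ℕ → X → ℂ} {f g : X → ℂ} {C D : ℝ} (hF : Conv μ F f C) (hG : Conv μ G g D)
    (hC : 0 ≤ C) (_hD : 0 ≤ D) :
    Conv μ (fun q x => F q x * G q x) (fun x => f x * g x) (C * D) := by
  refine ⟨fun q => (hF.sm q).mul (hG.sm q), ?_, hF.lsm.mul hG.lsm, ?_, ?_⟩
  · intro q x
    rw [norm_mul]
    exact mul_le_mul (hF.bd q x) (hG.bd q x) (norm_nonneg _) hC
  · filter_upwards [hF.lbd, hG.lbd] with x h1 h2
    rw [norm_mul]
    exact mul_le_mul h1 h2 (norm_nonneg _) hC
  · have hb : Tendsto (fun q => ENNReal.ofReal D * eLpNorm (fun x => F q x - f x) 2 μ +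
        ENNReal.ofReal C * eLpNorm (fun x => G q x - g x) 2 μ) atTop (𝓝 0) := by
      have h1 := ENNReal.Tendsto.const_mul (a := ENNReal.ofReal D) hF.lim (Or.inr ENNReal.ofReal_ne_top)
      have h2 := ENNReal.Tendsto.const_mul (a := ENNReal.ofReal C) hG.lim (Or.inr ENNReal.ofReal_ne_top)
      simpa using h1.add h2
    refine tendsto_of_tendsto_of_tendsto_of_le_of_le tendsto_const_nhds hb (fun _ => bot_le) ?_
    intro q
    have e : (fun x => F q x * G q x - f x * g x)
        = (fun x => (F q x - f x) * G q x) + fun x => f x * (G q x - g x) := by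
      funext x
      simp only [Pi.add_apply]
      ring
    have m1 : AEStronglyMeasurable (fun x => F q x - f x) μ :=
      (hF.sm q).aestronglyMeasurable.sub hF.lsm
    have m2 : AEStronglyMeasurable (fun x => G q x - g x) μ :=
      (hG.sm q).aestronglyMeasurable.sub hG.lsm
    simp only
    rw [e]
    refine (eLpNorm_add_le (m1.mul (hG.sm q).aestronglyMeasurable) (hF.lsm.mul m2)
      (by norm_num)).trans (add_le_add ?_ ?_)
    · apply eLpNorm_le_mul_eLpNorm_of_ae_le_mul
      refine Eventually.of_forall fun x => ?_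
      rw [Pi.mul_apply, norm_mul, mul_comm]
      gcongr
      exact hG.bd q x
    · apply eLpNorm_le_mul_eLpNorm_of_ae_le_mul
      filter_upwards [hF.lbd] with x hx
      rw [Pi.mul_apply, norm_mul]
      gcongr

omit [IsProbabilityMeasure μ] in
theorem Conv.prod {ι : Type} (s : Finset ι) {F : ι → ℕ → X → ℂ} {f : ι → X → ℂ} {C : ι → ℝ}
    (h : ∀ i, Conv μ (F i) (f i) (C i)) (hC : ∀ i, 0 ≤ C i) :
    Conv μ (fun q x => ∏ i ∈ s, F i q x) (fun x => ∏ i ∈ s, f i x) (∏ i ∈ s, C i) := by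
  classical
  induction s using Finset.induction_on with
  | empty =>
    refine ⟨fun _ => ?_, ?_, ?_, ?_, ?_⟩
    · simpa using stronglyMeasurable_const
    · intro q x; simp
    · simpa using aestronglyMeasurable_const
    · exact Eventually.of_forall fun x => by simp
    · simp
  | insert i s hi ih =>
    have h1 := (h i).mul ih (hC i) (Finset.prod_nonneg fun j _ => hC j)
    simpa [Finset.prod_insert hi] using h1

/-- ergodic averages of a bounded function converge -/
theorem Conv.erg (T : Equiv.Perm X) (hT : MeasurePreserving T μ μ) (hTs : Measurable T.symm)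
    {f : X → ℂ} (hf : StronglyMeasurable f) {C : ℝ} (hC : ∀ x, ‖f x‖ ≤ C) (hC0 : 0 ≤ C) :
    ∃ g, Conv μ (Dyn.erg T f) g C := by
  obtain ⟨Λ, hΛ⟩ := cauchySeq_tendsto_of_complete (mean_ergodic T hT hTs hf hC hC0)
  have hm : ∀ q, MemLp (Dyn.erg T f q) 2 μ := fun q =>
    memLp_of_bdd (sm_erg T hT hTs hf q) (erg_bdd T f hC hC0 q) 2
  have hlim : Tendsto (fun q => eLpNorm (fun x => Dyn.erg T f q x - Λ x) 2 μ) atTop (𝓝 0) := by
    have h := (Lp.tendsto_Lp_iff_tendsto_eLpNorm'' (Dyn.erg T f) hm Λ (Lp.memLp Λ)).mp (by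
      rw [Lp.toLp_coeFn]
      exact hΛ)
    exact h
  refine ⟨Λ, fun q => sm_erg T hT hTs hf q, erg_bdd T f hC hC0, (Lp.memLp Λ).1, ?_, hlim⟩
  exact ae_bound (fun q => sm_erg T hT hTs hf q) (erg_bdd T f hC hC0) (Lp.memLp Λ).1 hlim

/-- averages of products along the sequences, bounded measurable functions -/
theorem main {ℓ : ℕ} (s : Fin ℓ → ℕ) (hs : Function.Injective s) (T : Fin ℓ → Equiv.Perm X)
    (hT : ∀ i, MeasurePreserving (T i) μ μ) (hTs : ∀ i, Measurable (T i).symm)
    (f : Fin ℓ → X → ℂ) (hf : ∀ i, StronglyMeasurable (f i)) (C : Fin ℓ → ℝ) (hC0 : ∀ i, 0 ≤ C i)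
    (hC : ∀ i x, ‖f i x‖ ≤ C i) (g : Fin ℓ → X → ℂ)
    (hg : ∀ i, Conv μ (Dyn.erg (T i) (f i)) (g i) (C i)) :
    Tendsto (fun N : ℕ => eLpNorm (fun x => multAvg (fun i => aa (s i)) T f N x - ∏ i, g i x) 2 μ)
      atTop (𝓝 0) := by
  set D : ℝ := ∏ i, C i with hD
  have hD0 : 0 ≤ D := Finset.prod_nonneg fun i _ => hC0 i
  set φ : (ℕ → ℤ) → X → ℂ := fun p x => ∏ i, f i ((T i ^ p (s i)) x) with hφ
  have hφb : ∀ p x, ‖φ p x‖ ≤ D := by
    intro p x
    rw [hφ, hD]
    simp only [norm_prod]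
    exact Finset.prod_le_prod (fun _ _ => norm_nonneg _) fun i _ => hC i _
  have hφs : ∀ p, StronglyMeasurable (φ p) := fun p =>
    Finset.stronglyMeasurable_fun_prod _ fun i _ => sm_comp (T i) (hT i) (hTs i) (hf i) _
  have hφm : ∀ p, MemLp (φ p) 2 μ := fun p => memLp_of_bdd (hφs p) (hφb p) 2
  set Φ : (ℕ → ℤ) → Lp ℂ 2 μ := fun p => (hφm p).toLp (φ p) with hΦ
  have hΦb : ∀ p, ‖Φ p‖ ≤ D := fun p => norm_toLp_le (hφm p) hD0 (hφb p)
  have hconv := Conv.prod (μ := μ) Finset.univ hg hC0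
  have hEm : ∀ q, MemLp (fun x => ∏ i, Dyn.erg (T i) (f i) q x) 2 μ := fun q =>
    memLp_of_bdd (hconv.sm q) (hconv.bd q) 2
  have hgm : MemLp (fun x => ∏ i, g i x) 2 μ := MemLp.of_bound hconv.lsm _ hconv.lbd
  have hE : Tendsto (fun q => (hEm q).toLp _) atTop (𝓝 (hgm.toLp _)) :=
    (Lp.tendsto_Lp_iff_tendsto_eLpNorm'' _ hEm _ hgm).mpr hconv.lim
  have hlist : Tendsto (fun k => ((MM k).length : ℝ)⁻¹ • ((MM k).map Φ).sum) atTop
      (𝓝 (hgm.toLp _)) := by
    have h1 := hE.comp qk_atTop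
    have hdiff : Tendsto (fun k => ((MM k).length : ℝ)⁻¹ • ((MM k).map Φ).sum
        - (hEm (qk k)).toLp _) atTop (𝓝 0) := by
      rw [tendsto_zero_iff_norm_tendsto_zero]
      have hb : Tendsto (fun k => D * dl k) atTop (𝓝 0) := by
        simpa using dl_tendsto.const_mul D
      refine squeeze_zero' (Eventually.of_forall fun _ => norm_nonneg _) ?_ hb
      filter_upwards [eventually_eta, eventually_lt s] with k hk hk2
      obtain ⟨h3, he⟩ := avg_toLp φ hφm (MM k) (((MM k).length : ℝ)⁻¹)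
      rw [hΦ, he, ← MemLp.toLp_sub]
      have hdl0 : 0 ≤ dl k := by
        unfold dl
        have := eta_nonneg (qk k)
        positivity
      apply norm_toLp_le _ (by positivity)
      intro x
      exact avg_tuple s hs k hk2 hk (fun i n => f i ((T i ^ n) x)) C hC0 (fun i _ => hC i _)
    simpa using hdiff.add h1
  have hrun := tendsto_avg MM MM_ne Φ D hΦb _ hlist
  choose h3 he using fun N : ℕ =>
    avg_toLp (fun n : ℕ => φ (seqq MM n)) (fun n => hφm _) (List.range N) ((N : ℝ)⁻¹)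
  have hrun2 : Tendsto (fun N => (h3 N).toLp _) atTop (𝓝 (hgm.toLp _)) := by
    refine hrun.congr fun N => ?_
    exact he N
  have h4 := (Lp.tendsto_Lp_iff_tendsto_eLpNorm'' _ h3 _ hgm).mp hrun2
  refine h4.congr fun N => ?_
  congr 1
  funext x
  simp only [Pi.sub_apply]
  congr 1
  unfold multAvg
  rw [Complex.real_smul]
  push_cast
  rw [one_div]
  congr 1
  exact (Fin1.shift_sum (fun n => φ (seqq MM n) x) N).symm

/-- ergodic averages of an ergodic transformation converge to the integral -/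
theorem limit_const (T : Equiv.Perm X) (hT : Ergodic T μ) (hTs : Measurable T.symm)
    {f : X → ℂ} (hf : StronglyMeasurable f) {C : ℝ} (hC : ∀ x, ‖f x‖ ≤ C) {g : X → ℂ}
    (hg : Conv μ (Dyn.erg T f) g C) : g =ᵐ[μ] fun _ => ∫ x, f x ∂μ := by
  have hmp : MeasurePreserving T μ μ := hT.toMeasurePreserving
  have hC0 : 0 ≤ C := by
    obtain ⟨x⟩ : Nonempty X := μ.nonempty_of_neZero
    exact (norm_nonneg _).trans (hC x)
  -- the limit is invariant
  have hinv : g ∘ T =ᵐ[μ] g := by
    have hb : Tendsto (fun q : ℕ => eLpNorm (fun x => Dyn.erg T f q x - g x) 2 μ +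
        (ENNReal.ofReal (2 * C / q) + eLpNorm (fun x => Dyn.erg T f q x - g x) 2 μ)) atTop (𝓝 0) := by
      have h1 : Tendsto (fun q : ℕ => ENNReal.ofReal (2 * C / q)) atTop (𝓝 0) := by
        have := ENNReal.tendsto_ofReal (tendsto_const_div_atTop_nhds_zero_nat (2 * C))
        simpa using this
      simpa using hg.lim.add (h1.add hg.lim)
    have hle : ∀ q : ℕ, 1 ≤ q → eLpNorm (fun x => g (T x) - g x) 2 μ ≤
        eLpNorm (fun x => Dyn.erg T f q x - g x) 2 μ +
        (ENNReal.ofReal (2 * C / q) + eLpNorm (fun x => Dyn.erg T f q x - g x) 2 μ) := by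
      intro q hq
      have m1 : AEStronglyMeasurable (fun x => Dyn.erg T f q x - g x) μ :=
        (hg.sm q).aestronglyMeasurable.sub hg.lsm
      have m2 : AEStronglyMeasurable (fun x => Dyn.erg T f q (T x) - g (T x)) μ :=
        m1.comp_measurePreserving hmp
      have m3 : AEStronglyMeasurable (fun x => Dyn.erg T f q (T x) - Dyn.erg T f q x) μ :=
        (((hg.sm q).comp_measurable hmp.measurable).sub (hg.sm q)).aestronglyMeasurable
      have e : (fun x => g (T x) - g x) = (fun x => -(Dyn.erg T f q (T x) - g (T x))) +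
          ((fun x => Dyn.erg T f q (T x) - Dyn.erg T f q x) + fun x => Dyn.erg T f q x - g x) := by
        funext x
        simp only [Pi.add_apply]
        ring
      rw [e]
      refine (eLpNorm_add_le m2.neg (m3.add m1) (by norm_num)).trans (add_le_add ?_ ?_)
      · rw [eLpNorm_neg]
        exact (eLpNorm_comp_measurePreserving m1 hmp).le
      · refine (eLpNorm_add_le m3 m1 (by norm_num)).trans (add_le_add ?_ le_rfl)
        have h2 : ∀ x, ‖Dyn.erg T f q (T x) - Dyn.erg T f q x‖ ≤ 2 * C / q := by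
          intro x
          have hq0 : (0 : ℝ) < q := by exact_mod_cast hq
          have e2 : Dyn.erg T f q (T x) - Dyn.erg T f q x
              = (q : ℂ)⁻¹ * (f ((T ^ (q : ℤ)) x) - f x) := by
            unfold Dyn.erg
            rw [← mul_sub]
            congr 1
            have e3 : ∀ a : ℕ, f ((T ^ (a : ℤ)) (T x)) = f ((T ^ ((a + 1 : ℕ) : ℤ)) x) := by
              intro a
              congr 1
            rw [Finset.sum_congr rfl fun a _ => e3 a, ← Finset.sum_sub_distrib,
              Finset.sum_range_sub (fun a : ℕ => f ((T ^ (a : ℤ)) x))]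
            rfl
          rw [e2, norm_mul, norm_inv, Complex.norm_natCast, inv_mul_le_iff₀ hq0,
            mul_div_cancel₀ _ hq0.ne']
          calc _ ≤ ‖f ((T ^ (q : ℤ)) x)‖ + ‖f x‖ := norm_sub_le _ _
            _ ≤ C + C := add_le_add (hC _) (hC _)
            _ = _ := by ring
        have h3 := eLpNorm_le_of_ae_bound (p := 2) (μ := μ)
          (f := fun x => Dyn.erg T f q (T x) - Dyn.erg T f q x) (Eventually.of_forall h2)
        simpa using h3
    have h0 : eLpNorm (fun x => g (T x) - g x) 2 μ = 0 := by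
      refine le_antisymm (ge_of_tendsto hb ?_) bot_le
      filter_upwards [eventually_ge_atTop 1] with q hq
      exact hle q hq
    have m4 : AEStronglyMeasurable (fun x => g (T x) - g x) μ :=
      (hg.lsm.comp_measurePreserving hmp).sub hg.lsm
    rw [eLpNorm_eq_zero_iff m4 (by norm_num)] at h0
    filter_upwards [h0] with x hx
    simpa [sub_eq_zero] using hx
  obtain ⟨c, hc⟩ := hT.ae_eq_const_of_ae_eq_comp_ae hg.lsm hinv
  -- the constant
  have hfm : ∀ a : ℕ, ∫ x, f ((T ^ (a : ℤ)) x) ∂μ = ∫ x, f x ∂μ := by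
    intro a
    have h1 := mp_zpow T hmp hTs (a : ℤ)
    have h2 := integral_map h1.measurable.aemeasurable (f := f) (μ := μ)
      (by rw [h1.map_eq]; exact hf.aestronglyMeasurable)
    rw [h1.map_eq] at h2
    exact h2.symm
  have hfi : ∀ a : ℕ, Integrable (fun x => f ((T ^ (a : ℤ)) x)) μ := fun a =>
    memLp_one_iff_integrable.mp (memLp_of_bdd (sm_comp T hmp hTs hf _) (fun x => hC _) 1)
  have hI : ∀ q : ℕ, 1 ≤ q → ∫ x, Dyn.erg T f q x ∂μ = ∫ x, f x ∂μ := by
    intro q hq
    unfold Dyn.erg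
    rw [integral_const_mul, integral_finsetSum _ fun a _ => hfi a,
      Finset.sum_congr rfl fun a _ => hfm a]
    have hq0 : (q : ℂ) ≠ 0 := by exact_mod_cast (show q ≠ 0 by omega)
    simp [hq0]
  have hL1 : Tendsto (fun q => eLpNorm (Dyn.erg T f q - g) 1 μ) atTop (𝓝 0) := by
    refine tendsto_of_tendsto_of_tendsto_of_le_of_le tendsto_const_nhds hg.lim (fun _ => bot_le) ?_
    intro q
    exact eLpNorm_le_eLpNorm_of_exponent_le (by norm_num)
      ((hg.sm q).aestronglyMeasurable.sub hg.lsm)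
  have hgi : Integrable g μ :=
    memLp_one_iff_integrable.mp (MemLp.of_bound hg.lsm C hg.lbd)
  have hlim := tendsto_integral_of_L1' g hg.lsm (F := Dyn.erg T f) (l := atTop)
    (Eventually.of_forall fun q => memLp_one_iff_integrable.mp (memLp_of_bdd (hg.sm q) (hg.bd q) 1))
    hL1
  have hlim2 : Tendsto (fun q => ∫ x, Dyn.erg T f q x ∂μ) atTop (𝓝 (∫ x, f x ∂μ)) := by
    refine tendsto_const_nhds.congr' ?_
    filter_upwards [eventually_ge_atTop 1] with q hq
    exact (hI q hq).symm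
  have hgc : ∫ x, g x ∂μ = c := by
    rw [integral_congr_ae hc]
    simp
  have : c = ∫ x, f x ∂μ := by
    rw [← hgc]
    exact tendsto_nhds_unique hlim hlim2
  rw [← this]
  exact hc

end Pool.Agent.KS6_76.NC
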